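import Pool.Agent.Helper26.CL.St

/-! # Project CM, module SW: Stone-Weierstrass for products of sines -/

set_option autoImplicit false

open scoped BigOperators Topology
open Filter

namespace Pool.CN

namespace SWM

/-- the cube -/
abbrev Q (d : ℕ) : Set (Fin d → ℝ) := Set.Icc 0 1

lemma cx {d : ℕ} (i : Fin d) : Continuous (fun x : Q d => x.1 i) :=
  (continuous_apply i).comp continuous_subtype_val

/-- products of sines on the cube -/
noncomputable def s {d : ℕ} (k : Fin d → ℕ) : C(Q d, ℝ) :=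
  ⟨fun x => ∏ i, Real.sin (Real.pi * k i * x.1 i),
    continuous_finsetProd _ fun i _ => Real.continuous_sin.comp (continuous_const.mul (cx i))⟩

/-- the cosine of one coordinate -/
noncomputable def co {d : ℕ} (i : Fin d) : C(Q d, ℝ) :=
  ⟨fun x => Real.cos (Real.pi * x.1 i), Real.continuous_cos.comp (continuous_const.mul (cx i))⟩

lemma s_apply {d : ℕ} (k : Fin d → ℕ) (x : Q d) :
    s k x = ∏ i, Real.sin (Real.pi * k i * x.1 i) := rfl

lemma co_apply {d : ℕ} (i : Fin d) (x : Q d) : co i x = Real.cos (Real.pi * x.1 i) := rfl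

lemma s_update {d : ℕ} (k : Fin d → ℕ) (i : Fin d) (m : ℕ) (x : Q d) :
    s (Function.update k i m) x = Real.sin (Real.pi * m * x.1 i) *
      ∏ j ∈ Finset.univ.erase i, Real.sin (Real.pi * k j * x.1 j) := by
  rw [s_apply, ← Finset.mul_prod_erase Finset.univ _ (Finset.mem_univ i)]
  congr 1
  · simp
  · refine Finset.prod_congr rfl fun j hj => ?_
    rw [Function.update_of_ne (Finset.ne_of_mem_erase hj)]

/-- the span of the products of sines -/
noncomputable def S (d : ℕ) : Submodule ℝ C(Q d, ℝ) :=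
  Submodule.span ℝ (s '' {k : Fin d → ℕ | ∀ i, 1 ≤ k i})

lemma s_mem {d : ℕ} {k : Fin d → ℕ} (hk : ∀ i, 1 ≤ k i) : s k ∈ S d :=
  Submodule.subset_span ⟨k, hk, rfl⟩

lemma co_mul_s {d : ℕ} (i : Fin d) (k : Fin d → ℕ) (hk : ∀ i, 1 ≤ k i) : co i * s k ∈ S d := by
  have h1 : co i * s k = (1 / 2 : ℝ) • s (Function.update k i (k i + 1)) +
      (1 / 2 : ℝ) • s (Function.update k i (k i - 1)) := by
    ext x
    have h0 : s k x = Real.sin (Real.pi * k i * x.1 i) *
        ∏ j ∈ Finset.univ.erase i, Real.sin (Real.pi * k j * x.1 j) := by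
      rw [s_apply, ← Finset.mul_prod_erase Finset.univ _ (Finset.mem_univ i)]
    simp only [ContinuousMap.mul_apply, ContinuousMap.add_apply, ContinuousMap.smul_apply,
      smul_eq_mul]
    rw [s_update, s_update, h0, co_apply]
    have hc : ((k i - 1 : ℕ) : ℝ) = (k i : ℝ) - 1 := by
      rw [Nat.cast_sub (hk i)]; simp
    rw [hc]
    have e1 : Real.sin (Real.pi * ((k i + 1 : ℕ) : ℝ) * x.1 i) =
        Real.sin (Real.pi * k i * x.1 i + Real.pi * x.1 i) := by
      congr 1; push_cast; ring
    have e2 : Real.sin (Real.pi * ((k i : ℝ) - 1) * x.1 i) =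
        Real.sin (Real.pi * k i * x.1 i - Real.pi * x.1 i) := by
      congr 1; ring
    rw [e1, e2, Real.sin_add, Real.sin_sub]
    ring
  rw [h1]
  refine Submodule.add_mem _ (Submodule.smul_mem _ _ (s_mem ?_)) (Submodule.smul_mem _ _ ?_)
  · intro j
    rcases eq_or_ne j i with rfl | hj
    · simp
    · rw [Function.update_of_ne hj]; exact hk j
  · rcases Nat.lt_or_ge 1 (k i) with h2 | h2
    · refine s_mem ?_
      intro j
      rcases eq_or_ne j i with rfl | hj
      · rw [Function.update_self]; omega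
      · rw [Function.update_of_ne hj]; exact hk j
    · have h3 : k i - 1 = 0 := by omega
      have h4 : s (Function.update k i (k i - 1)) = 0 := by
        ext x
        rw [s_update, h3]
        simp
      rw [h4]
      exact Submodule.zero_mem _

lemma co_mul {d : ℕ} (i : Fin d) (f : C(Q d, ℝ)) (hf : f ∈ S d) : co i * f ∈ S d := by
  induction hf using Submodule.span_induction with
  | mem x hx =>
    obtain ⟨k, hk, rfl⟩ := hx
    exact co_mul_s i k hk
  | zero => rw [mul_zero]; exact Submodule.zero_mem _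
  | add x y _ _ hx hy => rw [mul_add]; exact Submodule.add_mem _ hx hy
  | smul a x _ hx => rw [mul_smul_comm]; exact Submodule.smul_mem _ _ hx

lemma adj_mul {d : ℕ} (P : C(Q d, ℝ)) (hP : P ∈ Algebra.adjoin ℝ (Set.range (co (d := d)))) :
    ∀ f ∈ S d, P * f ∈ S d := by
  induction hP using Algebra.adjoin_induction with
  | mem x hx =>
    obtain ⟨i, rfl⟩ := hx
    exact fun f hf => co_mul i f hf
  | algebraMap r =>
    intro f hf
    rw [← Algebra.smul_def]
    exact Submodule.smul_mem _ _ hf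
  | add x y _ _ hx hy =>
    intro f hf
    rw [add_mul]
    exact Submodule.add_mem _ (hx f hf) (hy f hf)
  | mul x y _ _ hx hy =>
    intro f hf
    rw [mul_assoc]
    exact hx _ (hy f hf)

lemma sep (d : ℕ) : (Algebra.adjoin ℝ (Set.range (co (d := d)))).SeparatesPoints := by
  intro x y hxy
  have h1 : ∃ i, x.1 i ≠ y.1 i := by
    by_contra h
    push Not at h
    exact hxy (Subtype.ext (funext h))
  obtain ⟨i, hi⟩ := h1
  refine ⟨co i, ⟨co i, Algebra.subset_adjoin ⟨i, rfl⟩, rfl⟩, ?_⟩
  rw [co_apply, co_apply]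
  intro h2
  have hm : ∀ z : Q d, Real.pi * z.1 i ∈ Set.Icc 0 Real.pi := by
    intro z
    have h0 := z.2.1 i
    have h1 := z.2.2 i
    simp only [Pi.zero_apply, Pi.one_apply] at h0 h1
    exact ⟨by positivity, by nlinarith [Real.pi_pos]⟩
  have h3 := Real.injOn_cos (hm x) (hm y) h2
  exact hi (mul_left_cancel₀ Real.pi_ne_zero h3)

lemma sin_ge {δ t : ℝ} (h0 : 0 < δ) (h1 : δ < 1 / 2) (ht : δ ≤ t) (ht' : t ≤ 1 - δ) :
    Real.sin (Real.pi * δ) ≤ Real.sin (Real.pi * t) := by
  have hp := Real.pi_pos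
  rcases le_or_gt t (1 / 2) with h | h
  · exact Real.sin_le_sin_of_le_of_le_pi_div_two (by nlinarith) (by nlinarith) (by nlinarith)
  · have h2 : Real.sin (Real.pi * t) = Real.sin (Real.pi * (1 - t)) := by
      rw [← Real.sin_pi_sub]; congr 1; ring
    rw [h2]
    exact Real.sin_le_sin_of_le_of_le_pi_div_two (by nlinarith) (by nlinarith) (by nlinarith)

end SWM

open SWM in
theorem hSW : StSW := by
  intro d g δ hg hδ hδ' hz ε hε
  have hsd : 0 < Real.sin (Real.pi * δ) :=
    Real.sin_pos_of_pos_of_lt_pi (by positivity) (by nlinarith [Real.pi_pos])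
  -- the quotient
  have hcont : Continuous (fun x : Q d => g x.1 *
      ∏ i, (max (Real.sin (Real.pi * x.1 i)) (Real.sin (Real.pi * δ)))⁻¹) := by
    refine Continuous.mul (hg.comp continuous_subtype_val) ?_
    refine continuous_finsetProd _ fun i _ => ?_
    refine Continuous.inv₀ ((Real.continuous_sin.comp (continuous_const.mul (cx i))).max
      continuous_const) ?_
    intro x
    exact (lt_of_lt_of_le hsd (le_max_right _ _)).ne'
  obtain ⟨P, hP⟩ := ContinuousMap.exists_mem_subalgebra_near_continuousMap_of_separatesPoints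
    (Algebra.adjoin ℝ (Set.range (co (d := d)))) (sep d) ⟨_, hcont⟩ ε hε
  have hS : (P : C(Q d, ℝ)) * s (fun _ => 1) ∈ S d :=
    adj_mul _ P.2 _ (s_mem (fun _ => le_refl 1))
  rw [S, Finsupp.mem_span_image_iff_linearCombination] at hS
  obtain ⟨l, hl, hl2⟩ := hS
  refine ⟨l.support, l, ?_, ?_⟩
  · intro k hk i
    exact (Finsupp.mem_supported _ _).mp hl hk i
  · intro x hx
    have hxQ : x ∈ Q d := ⟨fun i => (hx i).1, fun i => (hx i).2⟩
    have e1 : ∑ k ∈ l.support, l k * ∏ i, Real.sin (Real.pi * k i * x i) =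
        (P : C(Q d, ℝ)) ⟨x, hxQ⟩ * ∏ i, Real.sin (Real.pi * x i) := by
      have h1 := congrArg (fun f : C(Q d, ℝ) => f ⟨x, hxQ⟩) hl2
      simp only [ContinuousMap.mul_apply] at h1
      rw [s_apply] at h1
      simp only [Nat.cast_one, mul_one] at h1
      rw [← h1, Finsupp.linearCombination_apply, Finsupp.sum, ContinuousMap.coe_sum,
        Finset.sum_apply]
      refine Finset.sum_congr rfl fun k _ => ?_
      rw [ContinuousMap.smul_apply, s_apply, smul_eq_mul]
    have e2 : g x = (g x * ∏ i, (max (Real.sin (Real.pi * x i)) (Real.sin (Real.pi * δ)))⁻¹) *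
        ∏ i, Real.sin (Real.pi * x i) := by
      by_cases hc : ∃ i, x i ≤ δ ∨ 1 - δ ≤ x i
      · rw [hz x hc]; simp
      · push Not at hc
        rw [mul_assoc, ← Finset.prod_mul_distrib]
        rw [Finset.prod_eq_one, mul_one]
        intro i _
        have h3 := sin_ge hδ hδ' (hc i).1.le (hc i).2.le
        rw [max_eq_left h3]
        exact inv_mul_cancel₀ (lt_of_lt_of_le hsd h3).ne'
    have hprod : |∏ i, Real.sin (Real.pi * x i)| ≤ 1 := by
      rw [Finset.abs_prod]
      exact Finset.prod_le_one (fun i _ => abs_nonneg _) (fun i _ => Real.abs_sin_le_one _)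
    rw [e1, e2, ← sub_mul, abs_mul]
    have h4 : |(g x * ∏ i, (max (Real.sin (Real.pi * x i)) (Real.sin (Real.pi * δ)))⁻¹) -
        (P : C(Q d, ℝ)) ⟨x, hxQ⟩| ≤ ε := by
      have h5 := ContinuousMap.norm_coe_le_norm ((P : C(Q d, ℝ)) - ⟨_, hcont⟩) ⟨x, hxQ⟩
      rw [ContinuousMap.sub_apply, Real.norm_eq_abs, abs_sub_comm] at h5
      exact (h5.trans hP.le)
    calc _ ≤ ε * 1 := mul_le_mul h4 hprod (abs_nonneg _) hε.le
      _ = ε := mul_one _

end Pool.CN
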